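import Pool.Agent.Q160.DP.PRES

/-!
# Project DP: the local estimate for the determinant
-/

set_option autoImplicit false
set_option linter.unusedSectionVars false

namespace Pool.Agent.Q160.DP

open MvPolynomial FF Pool.Agent.W603.LV Pool.Agent.TH145.GH Pool.Agent.Y166.DP

section
variable {k K : Type} [Field k] [Field K] [Algebra k K]

theorem wr_eq (D₁ D₂ : K → K) (g : Fin 3 → K) : wr D₁ D₂ g =
    g 0 * D₁ (g 1) * D₂ (g 2) - g 0 * D₁ (g 2) * D₂ (g 1) - g 1 * D₁ (g 0) * D₂ (g 2)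
      + g 1 * D₁ (g 2) * D₂ (g 0) + g 2 * D₁ (g 0) * D₂ (g 1) - g 2 * D₁ (g 1) * D₂ (g 0) := by
  unfold Pool.Agent.Y166.DP.wr
  rw [Matrix.det_fin_three]
  simp

theorem wr_smul {R R' : Type} [CommRing R] [Algebra R K] [CommRing R'] [Algebra R' K]
    (D₁ : Derivation R K K) (D₂ : Derivation R' K K) (f : K) (g : Fin 3 → K) :
    wr D₁ D₂ (fun i => f * g i) = f ^ 3 * wr D₁ D₂ g := by
  rw [wr_eq, wr_eq]
  simp only [Derivation.leibniz, smul_eq_mul]
  ring

theorem wr_row {R R' R'' : Type} [CommRing R] [Algebra R K] [CommRing R'] [Algebra R' K]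
    [CommRing R''] [Algebra R'' K]
    (D₁ : Derivation R K K) (D₂ : Derivation R' K K) (D₃ : Derivation R'' K K) (a : K)
    (h : ∀ f, D₂ f = D₃ f + a * D₁ f) (g : Fin 3 → K) :
    wr D₁ D₂ g = wr D₁ D₃ g := by
  rw [wr_eq, wr_eq]
  simp only [h]
  ring

theorem quart_smul (f : K) (g : Fin 3 → K) : quart (fun i => f * g i) = f ^ 4 * quart g := by
  unfold quart
  ring

variable [CharZero k] [IsFF k K] [IsAlgClosed k]

/-- the local estimate for a vector of regular functions, one of which is a unit -/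
theorem loc_aux (P : Place k K) (δ : Derivation k K K) (hδ : δ ≠ 0) (hv : vo P δ = 0)
    (D' : Derivation ℤ K K) (hS : Sem k D') (g : Fin 3 → K) (hr : ∀ i, Ge P 0 (g i))
    (i₀ : Fin 3) (hi0 : g i₀ ≠ 0) (hi : P.ord (g i₀) = 0) (hq : quart g ≠ 0)
    (he : Even (P.ord (quart g))) :
    wr δ D' g = 0 ∨ P.ord (quart g) ≤ 2 * P.ord (wr δ D' g) := by
  obtain ⟨π, hπ0, hπ⟩ := P.surj
  have hδπ := der_pi_ne_zero hδ P hπ
  have hδπo : P.ord (δ π) = 0 := by rw [vo_eq P hπ hδ, hv]
  -- the modified derivation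
  obtain ⟨D2, hD2⟩ : ∃ D2 : Derivation ℤ K K, ∀ f, D2 f = D' f - D' π / δ π * δ f :=
    ⟨D' - (D' π / δ π) • (δ.restrictScalars ℤ), fun f => by simp⟩
  have hS2 : Sem k D2 := by
    intro c
    obtain ⟨c', hc'⟩ := hS c
    exact ⟨c', by rw [hD2, hc', Derivation.map_algebraMap, mul_zero, sub_zero]⟩
  have hπ2 : D2 π = 0 := by
    rw [hD2, div_mul_cancel₀ _ hδπ, sub_self]
  have hw : wr δ D' g = wr δ D2 g := by
    refine wr_row δ D' D2 (D' π / δ π) (fun f => ?_) g
    rw [hD2]; ring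
  have hδr : ∀ f, Ge P 0 f → Ge P 0 (δ f) := by
    intro f hf
    obtain ⟨c, hc, e⟩ := der_mul P hπ hδ hf
    rw [e]
    have h1 : Ge P 0 (δ π) := Or.inr hδπo.ge
    simpa using h1.mul hc
  have hD2r : ∀ f, Ge P 0 f → Ge P 0 (D2 f) := fun f hf => reg_of_zero P hπ hS2 hπ2 hf
  rw [hw]
  have hdr : Ge P 0 (wr δ D2 g) := by
    rw [wr_eq]
    have h3 : ∀ i j l : Fin 3, Ge P 0 (g i * δ (g j) * D2 (g l)) := by
      intro i j l
      have := ((hr i).mul (hδr _ (hr j))).mul (hD2r _ (hr l))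
      simpa using this
    exact (((((h3 0 1 2).sub (h3 0 2 1)).sub (h3 1 0 2)).add (h3 1 2 0)).add (h3 2 0 1)).sub
      (h3 2 1 0)
  have hqr : Ge P 0 (quart g) := by
    unfold quart
    have h3 : ∀ i : Fin 3, Ge P 0 (g i ^ 4) := by
      intro i
      have := (hr i).pow 4
      simpa using this
    exact ((h3 0).add (h3 1)).add (h3 2)
  have hn0 : 0 ≤ P.ord (quart g) := hqr.resolve_left hq
  rcases eq_or_lt_of_le hn0 with h | h
  · rcases hdr with h1 | h1
    · exact Or.inl h1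
    · right
      rw [← h]
      omega
  · obtain ⟨n, hn⟩ : ∃ n, n = P.ord (quart g) := ⟨_, rfl⟩
    rw [← hn] at h he ⊢
    have hn2 : 2 ≤ n := by
      obtain ⟨c, hc⟩ := he
      omega
    have hA : Ge P (n - 1) (quart g) := Or.inr (by omega)
    have hB : Ge P (n - 1) (δ (quart g)) := by
      have := ord_der P hδ (f := quart g) (by omega)
      right
      rw [this.2, hv]
      omega
    have hC : Ge P (n - 1) (D2 (quart g)) := by
      refine (pres k K P D2 hS2).2 π hπ ?_ (n - 1) _ hA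
      rw [hπ2]
      exact Ge.zero
    have e1 : 4 * g 0 ^ 3 * δ (g 0) + 4 * g 1 ^ 3 * δ (g 1) + 4 * g 2 ^ 3 * δ (g 2)
        = δ (quart g) := by
      unfold quart
      rw [map_add, map_add, δ.leibniz_pow, δ.leibniz_pow, δ.leibniz_pow]
      simp only [smul_eq_mul, nsmul_eq_mul]
      push_cast
      ring
    have e2 : 4 * g 0 ^ 3 * D2 (g 0) + 4 * g 1 ^ 3 * D2 (g 1) + 4 * g 2 ^ 3 * D2 (g 2)
        = D2 (quart g) := by
      unfold quart
      rw [map_add, map_add, D2.leibniz_pow, D2.leibniz_pow, D2.leibniz_pow]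
      simp only [smul_eq_mul, nsmul_eq_mul]
      push_cast
      ring
    have h2 : ∀ a b c : K, Ge P 0 a → Ge P 0 b → Ge P (n - 1) c → Ge P (n - 1) (a * b * c) := by
      intro a b c ha hb hc
      have := (ha.mul hb).mul hc
      simpa using this
    have hgd : ∀ i, Ge P 0 (δ (g i)) := fun i => hδr _ (hr i)
    have hgD : ∀ i, Ge P 0 (D2 (g i)) := fun i => hD2r _ (hr i)
    have h4 : Ge P 0 (4 : K) := by
      have := Ge.natCast (P := P) 4
      simpa using this
    have hmain : ∀ i, Ge P (n - 1) (4 * g i ^ 3 * wr δ D2 g) := by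
      have hcr : ∀ i j : Fin 3, Ge P (n - 1)
          (4 * quart g * (δ (g i) * D2 (g j) - δ (g j) * D2 (g i))
            - δ (quart g) * (g i * D2 (g j) - g j * D2 (g i))
            + D2 (quart g) * (g i * δ (g j) - g j * δ (g i))) := by
        intro i j
        have t1 : Ge P (n - 1) (4 * quart g * (δ (g i) * D2 (g j) - δ (g j) * D2 (g i))) := by
          have := (h4.mul hA).mul (((hgd i).mul (hgD j)).sub ((hgd j).mul (hgD i)))
          simpa using this
        have t2 : Ge P (n - 1) (δ (quart g) * (g i * D2 (g j) - g j * D2 (g i))) := by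
          have := hB.mul (((hr i).mul (hgD j)).sub ((hr j).mul (hgD i)))
          simpa using this
        have t3 : Ge P (n - 1) (D2 (quart g) * (g i * δ (g j) - g j * δ (g i))) := by
          have := hC.mul (((hr i).mul (hgd j)).sub ((hr j).mul (hgd i)))
          simpa using this
        exact (t1.sub t2).add t3
      intro i
      fin_cases i
      · have e : 4 * g 0 ^ 3 * wr δ D2 g = 4 * quart g * (δ (g 1) * D2 (g 2) - δ (g 2) * D2 (g 1))
            - δ (quart g) * (g 1 * D2 (g 2) - g 2 * D2 (g 1))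
            + D2 (quart g) * (g 1 * δ (g 2) - g 2 * δ (g 1)) := by
          rw [wr_eq, ← e1, ← e2]
          unfold quart
          ring
        change Ge P (n - 1) (4 * g 0 ^ 3 * wr δ D2 g)
        rw [e]
        exact hcr 1 2
      · have e : 4 * g 1 ^ 3 * wr δ D2 g = 4 * quart g * (δ (g 2) * D2 (g 0) - δ (g 0) * D2 (g 2))
            - δ (quart g) * (g 2 * D2 (g 0) - g 0 * D2 (g 2))
            + D2 (quart g) * (g 2 * δ (g 0) - g 0 * δ (g 2)) := by
          rw [wr_eq, ← e1, ← e2]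
          unfold quart
          ring
        change Ge P (n - 1) (4 * g 1 ^ 3 * wr δ D2 g)
        rw [e]
        exact hcr 2 0
      · have e : 4 * g 2 ^ 3 * wr δ D2 g = 4 * quart g * (δ (g 0) * D2 (g 1) - δ (g 1) * D2 (g 0))
            - δ (quart g) * (g 0 * D2 (g 1) - g 1 * D2 (g 0))
            + D2 (quart g) * (g 0 * δ (g 1) - g 1 * δ (g 0)) := by
          rw [wr_eq, ← e1, ← e2]
          unfold quart
          ring
        change Ge P (n - 1) (4 * g 2 ^ 3 * wr δ D2 g)
        rw [e]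
        exact hcr 0 1
    have hK : CharZero K := charZero_of_injective_algebraMap (algebraMap k K).injective
    have h40 : (4 : K) ≠ 0 := by norm_num
    have hu0 : 4 * g i₀ ^ 3 ≠ 0 := mul_ne_zero h40 (pow_ne_zero _ hi0)
    have hu : P.ord (4 * g i₀ ^ 3) = 0 := by
      rw [P.ord_mul h40 (pow_ne_zero _ hi0), P.ord_pow, hi]
      have hc : ((4 : k)) ≠ 0 := by norm_num
      have := P.ord_const hc
      rw [map_ofNat] at this
      rw [this]
      simp
    have h5 : Ge P (n - 1) (wr δ D2 g) := Ge.of_mul' hu0 hu (by rw [add_zero]; exact hmain i₀)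
    rcases h5 with h5 | h5
    · exact Or.inl h5
    · right
      omega

theorem loc : StmLoc := by
  intro k K _ _ _ _ _ _ P δ hδ hv D' hS g hg hq he
  obtain ⟨π, hπ0, hπ⟩ := P.surj
  obtain ⟨i₀, hi0, hi⟩ := exists_mo P hg
  obtain ⟨m, hm⟩ : ∃ m, m = mo P g := ⟨_, rfl⟩
  rw [← hm] at hi ⊢
  have hp : ∀ n : ℤ, π ^ n ≠ 0 := fun n => zpow_ne_zero n hπ0
  obtain ⟨g', hg'⟩ : ∃ g' : Fin 3 → K, g' = fun i => π ^ (-m) * g i := ⟨_, rfl⟩
  have e : g = fun i => π ^ m * g' i := by
    funext i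
    rw [hg']
    change g i = π ^ m * (π ^ (-m) * g i)
    rw [← mul_assoc, ← zpow_add₀ hπ0, add_neg_cancel, zpow_zero, one_mul]
  have hq' : quart g = (π ^ m) ^ 4 * quart g' := by
    conv_lhs => rw [e]
    exact quart_smul _ _
  have hw' : wr δ D' g = (π ^ m) ^ 3 * wr δ D' g' := by
    conv_lhs => rw [e]
    exact wr_smul δ D' _ _
  have hq0 : quart g' ≠ 0 := by
    intro h
    rw [h, mul_zero] at hq'
    exact hq hq'
  have hqo : P.ord (quart g) = 4 * m + P.ord (quart g') := by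
    rw [hq', P.ord_mul (pow_ne_zero _ (hp m)) hq0, P.ord_pow, P.ord_zpow, hπ]
    push_cast; ring
  have hr : ∀ i, Ge P 0 (g' i) := by
    intro i
    have h1 := (ge_zpow P hπ (-m)).mul (ge_mo P g i)
    rw [← hm, neg_add_cancel] at h1
    rw [hg']
    exact h1
  have hi0' : g' i₀ ≠ 0 := by
    rw [hg']
    exact mul_ne_zero (hp _) hi0
  have hi' : P.ord (g' i₀) = 0 := by
    rw [hg']
    change P.ord (π ^ (-m) * g i₀) = 0
    rw [P.ord_mul (hp _) hi0, P.ord_zpow, hπ, hi]
    ring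
  have he' : Even (P.ord (quart g')) := by
    rw [hqo] at he
    obtain ⟨c, hc⟩ := he
    exact ⟨c - 2 * m, by omega⟩
  rcases loc_aux P δ hδ hv D' hS g' hr i₀ hi0' hi' hq0 he' with h | h
  · left
    rw [hw', h, mul_zero]
  · by_cases hz : wr δ D' g' = 0
    · left
      rw [hw', hz, mul_zero]
    · right
      rw [hw', P.ord_mul (pow_ne_zero _ (hp m)) hz, P.ord_pow, P.ord_zpow, hπ, hqo]
      push_cast
      omega

end

end Pool.Agent.Q160.DP
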