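import Pool.Agent.Q35.DP.Plan

/-!
# Project DP: a derivation that kills a function preserves the order at its zeros and poles
-/

set_option autoImplicit false
set_option linter.unusedSectionVars false

namespace Pool.Agent.Q160.DP

open MvPolynomial FF Pool.Agent.W603.LV Pool.Agent.TH145.GH Pool.Agent.Y166.DP

section
variable {k K : Type} [Field k] [Field K] [Algebra k K]

theorem ge_zpow (P : Place k K) {π : K} (hπ : P.ord π = 1) (n : ℤ) : Ge P n (π ^ n) :=
  Or.inr (by rw [P.ord_zpow, hπ, mul_one])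

theorem ne_of_ord (P : Place k K) {π : K} (hπ : P.ord π = 1) : π ≠ 0 := by
  rintro rfl
  rw [P.ord_zero] at hπ
  omega

/-- division by a power of the uniformizer -/
theorem exists_unit (P : Place k K) {π : K} (hπ : P.ord π = 1) {f : K} (hf : f ≠ 0) :
    ∃ u : K, u ≠ 0 ∧ P.ord u = 0 ∧ f = π ^ P.ord f * u := by
  have h0 := ne_of_ord P hπ
  refine ⟨f * π ^ (- P.ord f), mul_ne_zero hf (zpow_ne_zero _ h0), ?_, ?_⟩
  · rw [P.ord_mul hf (zpow_ne_zero _ h0), P.ord_zpow, hπ]; ring
  · rw [mul_comm f, ← mul_assoc, ← zpow_add₀ h0]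
    simp

variable [CharZero k] [IsFF k K] [IsAlgClosed k]

/-- decomposition of a derivation at a place -/
theorem decomp (P : Place k K) {π : K} (hπ : P.ord π = 1) {D' : Derivation ℤ K K}
    (hS : Sem k D') : ∃ (δ : Derivation k K K) (D1 : Derivation ℤ K K), δ π = 1 ∧
      (∀ f, Ge P 0 f → Ge P 0 (δ f)) ∧ Sem k D1 ∧ D1 π = 0 ∧ (∀ f, Ge P 0 f → Ge P 0 (D1 f)) ∧
      ∀ f, D' f = D1 f + D' π * δ f := by
  obtain ⟨d, hd0⟩ := exists_der (k := k) (K := K)
  have h0 := der_pi_ne_zero hd0 P hπ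
  obtain ⟨δ, hδ⟩ : ∃ δ : Derivation k K K, δ = (d π)⁻¹ • d := ⟨_, rfl⟩
  have hδπ : δ π = 1 := by
    rw [hδ]; simp [h0]
  obtain ⟨D1, hD1⟩ : ∃ D1 : Derivation ℤ K K, ∀ f, D1 f = D' f - D' π * δ f :=
    ⟨D' - D' π • (δ.restrictScalars ℤ), fun f => by simp⟩
  have hS1 : Sem k D1 := by
    intro c
    obtain ⟨c', hc'⟩ := hS c
    exact ⟨c', by rw [hD1, hc', Derivation.map_algebraMap, mul_zero, sub_zero]⟩
  have hπ1 : D1 π = 0 := by rw [hD1, hδπ, mul_one, sub_self]
  refine ⟨δ, D1, hδπ, fun f hf => der_reg P hπ δ hδπ hf, hS1, hπ1,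
    fun f hf => reg_of_zero P hπ hS1 hπ1 hf, fun f => ?_⟩
  rw [hD1]; ring

/-- the derivative of `π ^ n u` -/
theorem der_zpow_mul {R : Type} [CommRing R] [Algebra R K] (D : Derivation R K K) {π : K}
    (n : ℤ) (u : K) :
    D (π ^ n * u) = π ^ n * D u + n * π ^ (n - 1) * D π * u := by
  rw [D.leibniz, D.leibniz_zpow]
  simp only [smul_eq_mul, zsmul_eq_mul]
  ring

theorem pres : StmPres := by
  intro k K _ _ _ _ _ _ P D' hS
  constructor
  · intro π hπ f hf hn hD
    obtain ⟨δ, D1, h1, h2, h3, h4, h5, h6⟩ := decomp P hπ hS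
    have h0 := ne_of_ord P hπ
    obtain ⟨u, hu0, hu, e⟩ := exists_unit P hπ hf
    obtain ⟨n, hn'⟩ : ∃ n, n = P.ord f := ⟨_, rfl⟩
    rw [← hn'] at e hn
    have hur : Ge P 0 u := Or.inr hu.ge
    have e1 : D1 f = π ^ n * D1 u := by
      rw [e, der_zpow_mul D1, h4]; ring
    have e2 : δ f = π ^ n * δ u + n * π ^ (n - 1) * u := by
      rw [e, der_zpow_mul δ, h1]; ring
    have e3 : π ^ n = π ^ (n - 1) * π := by
      rw [← zpow_add_one₀ h0]; congr 1; ring
    have e4 := h6 f
    rw [hD, e1, e2, e3] at e4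
    have hp : π ^ (n - 1) ≠ 0 := zpow_ne_zero _ h0
    have e5 : (n * u + π * δ u) * D' π = - (π * D1 u) := by
      have : π ^ (n - 1) * ((n * u + π * δ u) * D' π + π * D1 u) = 0 := by
        rw [e4]; ring
      have := (mul_eq_zero.1 this).resolve_left hp
      linear_combination this
    have hπ1 : Ge P 1 π := Or.inr hπ.ge
    have hK : CharZero K := charZero_of_injective_algebraMap (algebraMap k K).injective
    have hnK : (n : K) ≠ 0 := Int.cast_ne_zero.2 hn
    have hnu : P.ord ((n : K) * u) = 0 := by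
      rw [P.ord_mul hnK hu0, hu, add_zero]
      have hc : ((n : k)) ≠ 0 := Int.cast_ne_zero.2 hn
      have := P.ord_const hc
      rwa [map_intCast] at this
    have hw : ((n : K) * u + π * δ u) ≠ 0 ∧ P.ord ((n : K) * u + π * δ u) = 0 := by
      by_cases hz : π * δ u = 0
      · rw [hz, add_zero]
        exact ⟨mul_ne_zero hnK hu0, hnu⟩
      · have hz1 : Ge P 1 (π * δ u) := by
          have := hπ1.mul (h2 u hur)
          rwa [add_zero] at this
        have hz2 := hz1.resolve_left hz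
        have hlt : P.ord ((n : K) * u) < P.ord (π * δ u) := by omega
        have := P.ord_add_eq (mul_ne_zero hnK hu0) hz hlt
        exact ⟨this.1, this.2.trans hnu⟩
    have hr : Ge P 1 (((n : K) * u + π * δ u) * D' π) := by
      rw [e5]
      have := (hπ1.mul (h5 u hur)).neg
      rwa [add_zero] at this
    exact Ge.of_mul' hw.1 hw.2 (by rwa [add_zero])
  · intro π hπ hD n f hf
    have h0 := ne_of_ord P hπ
    have hu : Ge P 0 (π ^ (-n) * f) := by
      have := (ge_zpow P hπ (-n)).mul hf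
      rwa [neg_add_cancel] at this
    have e : f = π ^ n * (π ^ (-n) * f) := by
      rw [← mul_assoc, ← zpow_add₀ h0, add_neg_cancel, zpow_zero, one_mul]
    rw [e, der_zpow_mul D']
    refine Ge.add ?_ ?_
    · have := (ge_zpow P hπ n).mul (reg_of_unif P hπ hS le_rfl (hD.mono (by norm_num)) hu)
      rwa [add_zero] at this
    · have h1 := (((Ge.intCast (P := P) n).mul (ge_zpow P hπ (n - 1))).mul hD).mul hu
      have e2 : 0 + (n - 1) + 1 + 0 = n := by ring
      rwa [e2] at h1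

end

end Pool.Agent.Q160.DP
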