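import Pool.Agent.Q160.DP.PRES

/-!
# Project DP: a derivation that maps constants to constants and kills generators preserves the local
ring
-/

set_option autoImplicit false
set_option linter.unusedSectionVars false

namespace Pool.Agent.Q160.DP

open MvPolynomial FF Pool.Agent.W603.LV Pool.Agent.TH145.GH Pool.Agent.Y166.DP

section
variable {k K : Type} [Field k] [Field K] [Algebra k K]
variable [CharZero k] [IsFF k K] [IsAlgClosed k]

/-- the order of the derivative at a place where the derivation has a pole -/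
theorem ord_pole (P : Place k K) {π : K} (hπ : P.ord π = 1) {D' : Derivation ℤ K K}
    (hS : Sem k D') (h0' : D' π ≠ 0) (hN : P.ord (D' π) < 0) {f : K} (hf : f ≠ 0)
    (hm : P.ord f ≠ 0) : D' f ≠ 0 ∧ P.ord (D' f) = P.ord f - 1 + P.ord (D' π) := by
  obtain ⟨δ, D1, h1, h2, h3, h4, h5, h6⟩ := decomp P hπ hS
  have h0 := ne_of_ord P hπ
  obtain ⟨u, hu0, hu, e⟩ := exists_unit P hπ hf
  obtain ⟨n, hn'⟩ : ∃ n, n = P.ord f := ⟨_, rfl⟩
  rw [← hn'] at e hm ⊢
  have hur : Ge P 0 u := Or.inr hu.ge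
  have e1 : D1 f = π ^ n * D1 u := by
    rw [e, der_zpow_mul D1, h4]; ring
  have e2 : δ f = π ^ n * δ u + n * π ^ (n - 1) * u := by
    rw [e, der_zpow_mul δ, h1]; ring
  have e4 := h6 f
  rw [e1, e2] at e4
  have hK : CharZero K := charZero_of_injective_algebraMap (algebraMap k K).injective
  have hnK : (n : K) ≠ 0 := Int.cast_ne_zero.2 hm
  have hn0 : P.ord (n : K) = 0 := by
    have hc : ((n : k)) ≠ 0 := Int.cast_ne_zero.2 hm
    have := P.ord_const hc
    rwa [map_intCast] at this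
  obtain ⟨A, hA⟩ : ∃ A : K, A = D' π * (n * π ^ (n - 1) * u) := ⟨_, rfl⟩
  obtain ⟨B, hB⟩ : ∃ B : K, B = π ^ n * D1 u + D' π * (π ^ n * δ u) := ⟨_, rfl⟩
  have hfAB : D' f = A + B := by
    rw [e4, hA, hB]; ring
  have hp : π ^ (n - 1) ≠ 0 := zpow_ne_zero _ h0
  have hA0 : A ≠ 0 := by
    rw [hA]
    exact mul_ne_zero h0' (mul_ne_zero (mul_ne_zero hnK hp) hu0)
  have hAo : P.ord A = n - 1 + P.ord (D' π) := by
    rw [hA, P.ord_mul h0' (mul_ne_zero (mul_ne_zero hnK hp) hu0),
      P.ord_mul (mul_ne_zero hnK hp) hu0, P.ord_mul hnK hp, P.ord_zpow, hπ, hn0, hu]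
    ring
  have hBo : Ge P (n + P.ord (D' π)) B := by
    rw [hB]
    refine Ge.add ?_ ?_
    · have := (ge_zpow P hπ n).mul (h5 u hur)
      exact this.mono (by omega)
    · have h7 : Ge P (P.ord (D' π)) (D' π) := Or.inr le_rfl
      have := h7.mul ((ge_zpow P hπ n).mul (h2 u hur))
      exact this.mono (by omega)
  rw [hfAB]
  by_cases hz : B = 0
  · rw [hz, add_zero]
    exact ⟨hA0, hAo⟩
  · have hlt : P.ord A < P.ord B := by
      have := hBo.resolve_left hz
      omega
    have := P.ord_add_eq hA0 hz hlt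
    exact ⟨this.1, this.2.trans hAo⟩

theorem reg : StmReg := by
  intro k K _ _ _ _ _ _ P D' hS S hSD hSr hgen f hf
  obtain ⟨π, hπ0, hπ⟩ := P.surj
  suffices h : Ge P 0 (D' π) from reg_of_unif P hπ hS le_rfl h hf
  by_contra hc
  have h0' : D' π ≠ 0 := fun h => hc (Or.inl h)
  have hN : P.ord (D' π) < 0 := by
    by_contra h
    exact hc (Or.inr (not_lt.1 h))
  obtain ⟨N, hN'⟩ : ∃ N : ℕ, P.ord (D' π) = - (N : ℤ) := by
    obtain ⟨N, hN'⟩ := Int.eq_ofNat_of_zero_le (a := - P.ord (D' π)) (by omega)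
    exact ⟨N, by omega⟩
  have hN1 : 1 ≤ N := by omega
  -- the ring generated by `S`
  have hR : ∀ r ∈ Algebra.adjoin k S, Ge P 0 r ∧ D' r ∈ Algebra.adjoin k S := by
    intro r hr
    induction hr using Algebra.adjoin_induction with
    | mem s hs => exact ⟨hSr s hs, by rw [hSD s hs]; exact zero_mem _⟩
    | algebraMap c =>
      obtain ⟨c', hc'⟩ := hS c
      exact ⟨Ge.const c, by rw [hc']; exact Subalgebra.algebraMap_mem _ _⟩
    | add a b ha hb iha ihb =>
      exact ⟨iha.1.add ihb.1, by rw [map_add]; exact add_mem iha.2 ihb.2⟩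
    | mul a b ha hb iha ihb =>
      refine ⟨by simpa using iha.1.mul ihb.1, ?_⟩
      rw [D'.leibniz]
      simp only [smul_eq_mul]
      exact add_mem (mul_mem ha ihb.2) (mul_mem hb iha.2)
  have hdvd : ∀ m : ℕ, ∀ r ∈ Algebra.adjoin k S, r ≠ 0 → P.ord r = m → ((N + 1 : ℕ) : ℤ) ∣ P.ord r := by
    intro m
    induction m using Nat.strong_induction_on with
    | _ m ih =>
      intro r hr hr0 hm
      rcases Nat.eq_zero_or_pos m with h | h
      · rw [hm, h]; simp
      · have h1 := ord_pole P hπ hS h0' hN hr0 (by rw [hm]; omega)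
        have h3 := (hR r hr).2
        have h4 : 0 ≤ P.ord (D' r) := (hR _ h3).1.resolve_left h1.1
        obtain ⟨m', hm'⟩ := Int.eq_ofNat_of_zero_le h4
        have h5 := ih m' (by omega) (D' r) h3 h1.1 hm'
        have h6 : P.ord r = P.ord (D' r) + ((N + 1 : ℕ) : ℤ) := by
          push_cast; omega
        rw [h6]
        exact dvd_add h5 dvd_rfl
  have hdvd' : ∀ r ∈ Algebra.adjoin k S, r ≠ 0 → ((N + 1 : ℕ) : ℤ) ∣ P.ord r := by
    intro r hr hr0
    have h4 : 0 ≤ P.ord r := (hR _ hr).1.resolve_left hr0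
    obtain ⟨m', hm'⟩ := Int.eq_ofNat_of_zero_le h4
    exact hdvd m' r hr hr0 hm'
  have hπm : π ∈ IntermediateField.adjoin k S := by rw [hgen]; trivial
  obtain ⟨r, hr, s, hs, e⟩ := IntermediateField.mem_adjoin_iff_div.1 hπm
  have hr0 : r ≠ 0 := by
    rintro rfl
    rw [zero_div] at e
    exact hπ0 e
  have hs0 : s ≠ 0 := by
    rintro rfl
    rw [div_zero] at e
    exact hπ0 e
  have h1 := P.ord_div hr0 hs0
  rw [← e, hπ] at h1
  have h2 : ((N + 1 : ℕ) : ℤ) ∣ 1 := by
    rw [h1]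
    exact dvd_sub (hdvd' r hr hr0) (hdvd' s hs hs0)
  have h3 := Int.le_of_dvd one_pos h2
  push_cast at h3
  omega

end

end Pool.Agent.Q160.DP
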